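import Pool.Agent.N89.BD.Base

/-! Project BD, task TRC: points of `E(F_(q^t))` with given trace. -/

set_option autoImplicit false

namespace Pool.Agent.N34.BD.TRC

open MvPolynomial NumberField Pool.Agent.H901R3.MS Pool.Agent.W659 Pool.Agent.W659.SA
  Pool.Agent.N89.GS Pool.Agent.N89.BD WeierstrassCurve

section
variable {k Ω : Type} [Field k] [Fintype k] [Field Ω] [Algebra k Ω]

theorem mp_iter_zero (a b : ℤ) (t : ℕ) :
    (mp (Fr k Ω) : Pt (a : Ω) (b : Ω) → Pt (a : Ω) (b : Ω))^[t] Affine.Point.zero =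
      Affine.Point.zero := by
  induction t with
  | zero => rfl
  | succ t ih => rw [Function.iterate_succ_apply', ih]; rfl

theorem mp_iter_some (a b : ℤ) (t : ℕ) (x y : Ω)
    (h : (CV (a : Ω) (b : Ω)).toAffine.Nonsingular x y) :
    ∃ h', (mp (Fr k Ω) : Pt (a : Ω) (b : Ω) → Pt (a : Ω) (b : Ω))^[t] (Affine.Point.some x y h) =
      Affine.Point.some (x ^ (Fintype.card k ^ t)) (y ^ (Fintype.card k ^ t)) h' := by
  induction t with
  | zero =>
    simp only [pow_zero, pow_one]
    exact ⟨h, rfl⟩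
  | succ t ih =>
    obtain ⟨h', e⟩ := ih
    rw [Function.iterate_succ_apply', e]
    have e1 : x ^ (Fintype.card k ^ (t + 1)) = Fr k Ω (x ^ (Fintype.card k ^ t)) := by
      rw [Fr_apply, ← pow_mul, pow_succ]
    have e2 : y ^ (Fintype.card k ^ (t + 1)) = Fr k Ω (y ^ (Fintype.card k ^ t)) := by
      rw [Fr_apply, ← pow_mul, pow_succ]
    have h1 : CV (a : Ω) (b : Ω) = (CV (a : Ω) (b : Ω)).map (Fr k Ω) := by
      simp [CV, WeierstrassCurve.map]
    have h2 : (CV (a : Ω) (b : Ω)).toAffine.Nonsingular (Fr k Ω (x ^ (Fintype.card k ^ t)))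
        (Fr k Ω (y ^ (Fintype.card k ^ t))) := by
      rw [h1]
      exact (WeierstrassCurve.Affine.map_nonsingular _ (Fr k Ω).injective _ _).2 h'
    simp only [e1, e2]
    exact ⟨h2, rfl⟩

open Classical in
/-- the point with the coordinates `x, y`, if it exists -/
noncomputable def gpt (a b : ℤ) (x y : Ω) : Pt (a : Ω) (b : Ω) :=
  if h : (CV (a : Ω) (b : Ω)).toAffine.Nonsingular x y then Affine.Point.some x y h
    else Affine.Point.zero

theorem A_bound (a b : ℤ) (t : ℕ) (ht : 1 ≤ t) :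
    {P : Pt (a : Ω) (b : Ω) | (mp (Fr k Ω))^[t] P = P}.Finite ∧
    {P : Pt (a : Ω) (b : Ω) | (mp (Fr k Ω))^[t] P = P}.ncard ≤ 3 * Fintype.card k ^ t := by
  classical
  set q := Fintype.card k with hq
  have hq1 : 1 < q := Fintype.one_lt_card
  set Rf : Finset Ω := (Polynomial.X ^ q ^ t - Polynomial.X : Polynomial Ω).roots.toFinset with hRf
  have hR0 : (Polynomial.X ^ q ^ t - Polynomial.X : Polynomial Ω) ≠ 0 :=
    FiniteField.X_pow_card_pow_sub_X_ne_zero Ω (by omega) hq1
  have hRc : Rf.card ≤ q ^ t := by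
    refine (Multiset.toFinset_card_le _).trans ((Polynomial.card_roots' _).trans ?_)
    rw [FiniteField.X_pow_card_pow_sub_X_natDegree_eq Ω (by omega) hq1]
  set Yf : Ω → Finset Ω := fun x =>
    (Polynomial.X ^ 2 - Polynomial.C (x ^ 3 + a * x + b) : Polynomial Ω).roots.toFinset with hYf
  have hYc : ∀ x, (Yf x).card ≤ 2 := by
    intro x
    refine (Multiset.toFinset_card_le _).trans ((Polynomial.card_roots' _).trans ?_)
    rw [Polynomial.natDegree_X_pow_sub_C]
  have hsub : {P : Pt (a : Ω) (b : Ω) | (mp (Fr k Ω))^[t] P = P} ⊆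
      ↑(insert Affine.Point.zero (Rf.biUnion fun x => (Yf x).image (gpt a b x)) :
        Finset (Pt (a : Ω) (b : Ω))) := by
    intro P hP
    rcases P with _ | ⟨x, y, h⟩
    · simp
    · have hP' : (mp (Fr k Ω))^[t] (Affine.Point.some x y h : Pt (a : Ω) (b : Ω)) =
        Affine.Point.some x y h := hP
      obtain ⟨h', e⟩ := mp_iter_some (k := k) a b t x y h
      rw [e] at hP'
      simp only [Affine.Point.some.injEq] at hP'
      refine Finset.mem_coe.2 (Finset.mem_insert_of_mem (Finset.mem_biUnion.2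
        ⟨x, ?_, Finset.mem_image.2 ⟨y, ?_, ?_⟩⟩))
      · rw [hRf, Multiset.mem_toFinset, Polynomial.mem_roots hR0]
        simp only [Polynomial.IsRoot.def, Polynomial.eval_sub, Polynomial.eval_pow,
          Polynomial.eval_X]
        rw [hP'.1, sub_self]
      · rw [hYf]
        simp only
        rw [Multiset.mem_toFinset, Polynomial.mem_roots (Polynomial.X_pow_sub_C_ne_zero
          (by norm_num) _)]
        simp only [Polynomial.IsRoot.def, Polynomial.eval_sub, Polynomial.eval_pow,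
          Polynomial.eval_X, Polynomial.eval_C]
        have := eqn_of h
        unfold Eqn at this
        rw [this, sub_self]
      · rw [gpt, dif_pos h]
  refine ⟨(Finset.finite_toSet _).subset hsub, ?_⟩
  refine (Set.ncard_le_ncard hsub (Finset.finite_toSet _)).trans ?_
  rw [Set.ncard_coe_finset]
  refine (Finset.card_insert_le _ _).trans ?_
  have h1 : (Rf.biUnion fun x => (Yf x).image (gpt a b x)).card ≤ Rf.card * 2 :=
    Finset.card_biUnion_le_card_mul _ _ _ (fun x _ => Finset.card_image_le.trans (hYc x))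
  have h2 : 1 ≤ q ^ t := Nat.one_le_pow _ _ (by omega)
  omega

theorem fix_emb (a b : ℤ) (Q : Pt (a : k) (b : k)) :
    mp (Fr k Ω) (mp (algebraMap k Ω) Q) = mp (algebraMap k Ω) Q := by
  rcases Q with _ | ⟨x, y, h⟩
  · rfl
  · simp only [mp, Affine.Point.some.injEq]
    constructor
    · rw [Fr_apply, ← map_pow, FiniteField.pow_card]
    · rw [Fr_apply, ← map_pow, FiniteField.pow_card]

theorem fin_k (a b : ℤ) : Finite (Pt (a : k) (b : k)) := by
  have h := (A_bound (k := k) (Ω := k) a b 1 le_rfl).1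
  have h2 : {P : Pt (a : k) (b : k) | (mp (Fr k k))^[1] P = P} = Set.univ := by
    ext P
    simp only [Function.iterate_one, Set.mem_ofPred_eq, Set.mem_univ, iff_true]
    rcases P with _ | ⟨x, y, h⟩
    · rfl
    · simp only [mp, Affine.Point.some.injEq]
      constructor
      · rw [Fr_apply, FiniteField.pow_card]
      · rw [Fr_apply, FiniteField.pow_card]
  rw [h2] at h
  exact Set.finite_univ_iff.1 h

theorem key [DecidableEq Ω] [DecidableEq k] (a b : ℤ) (hd : Disc (a : Ω) (b : Ω)) (t m C₁ : ℕ)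
    (ht : 1 ≤ t) (hf : {P : Pt (a : k) (b : k) | (m * t) • P = 0}.Finite)
    (hC : {P : Pt (a : k) (b : k) | (m * t) • P = 0}.ncard ≤ C₁) (σ : Pt (a : Ω) (b : Ω)) :
    {P : Pt (a : Ω) (b : Ω) | (mp (Fr k Ω))^[t] P = P ∧
      m • ∑ i ∈ Finset.range t, (mp (Fr k Ω))^[i] P = σ}.ncard * Nat.card (Pt (a : k) (b : k)) ≤
      C₁ * {P : Pt (a : Ω) (b : Ω) | (mp (Fr k Ω))^[t] P = P}.ncard := by
  classical
  set A : Set (Pt (a : Ω) (b : Ω)) := {P | (mp (Fr k Ω))^[t] P = P} with hA
  set S : Set (Pt (a : Ω) (b : Ω)) := {P | (mp (Fr k Ω))^[t] P = P ∧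
      m • ∑ i ∈ Finset.range t, (mp (Fr k Ω))^[i] P = σ} with hS
  have hAf : A.Finite := (A_bound a b t ht).1
  have hSf : S.Finite := hAf.subset (fun P hP => hP.1)
  have := fin_k (k := k) a b
  have := Fintype.ofFinite (Pt (a : k) (b : k))
  set Fh : Pt (a : Ω) (b : Ω) →+ Pt (a : Ω) (b : Ω) :=
    AddMonoidHom.mk' (mp (Fr k Ω)) (mp_add (Fr k Ω) hd) with hFh
  set eh : Pt (a : k) (b : k) →+ Pt (a : Ω) (b : Ω) :=
    AddMonoidHom.mk' (mp (algebraMap k Ω)) (mp_add (algebraMap k Ω) hd) with heh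
  have hFc : ∀ P, Fh P = mp (Fr k Ω) P := fun _ => rfl
  have hit : ∀ i (P : Pt (a : Ω) (b : Ω)), (mp (Fr k Ω))^[i] P = Fh^[i] P := fun _ _ => rfl
  have hadd : ∀ i (P Q : Pt (a : Ω) (b : Ω)), (mp (Fr k Ω))^[i] (P + Q) =
      (mp (Fr k Ω))^[i] P + (mp (Fr k Ω))^[i] Q := by
    intro i P Q
    rw [hit, hit, hit]
    exact iterate_map_add Fh i P Q
  have heinj : Function.Injective eh := mp_inj (algebraMap k Ω)
  have hfix : ∀ i Q, (mp (Fr k Ω))^[i] (eh Q) = eh Q := by
    intro i Q
    exact Function.iterate_fixed (fix_emb a b Q) i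
  have hh : ∀ (P : Pt (a : Ω) (b : Ω)) Q, m • ∑ i ∈ Finset.range t, (mp (Fr k Ω))^[i] (P + eh Q) =
      m • ∑ i ∈ Finset.range t, (mp (Fr k Ω))^[i] P + eh ((m * t) • Q) := by
    intro P Q
    simp only [hadd, hfix, Finset.sum_add_distrib, Finset.sum_const, Finset.card_range, smul_add]
    rw [map_nsmul, mul_smul]
  have hmain : (hSf.toFinset ×ˢ (Finset.univ : Finset (Pt (a : k) (b : k)))).card ≤
      C₁ * hAf.toFinset.card := by
    refine Finset.card_le_mul_card_image_of_maps_to (f := fun z => z.1 + eh z.2) ?_ C₁ ?_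
    · rintro ⟨P, Q⟩ hPQ
      simp only [Finset.mem_product, Set.Finite.mem_toFinset, Finset.mem_univ, and_true] at hPQ
      rw [Set.Finite.mem_toFinset]
      show (mp (Fr k Ω))^[t] (P + eh Q) = P + eh Q
      rw [hadd, hfix, hPQ.1]
    · intro R _
      by_cases hne : (Finset.filter (fun z : Pt (a : Ω) (b : Ω) × Pt (a : k) (b : k) =>
          z.1 + eh z.2 = R) (hSf.toFinset ×ˢ Finset.univ)).Nonempty
      · obtain ⟨⟨P0, Q0⟩, h0⟩ := hne
        simp only [Finset.mem_filter, Finset.mem_product, Set.Finite.mem_toFinset,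
          Finset.mem_univ, and_true] at h0
        obtain ⟨hP0, hR0⟩ := h0
        have hcard : (Finset.filter (fun z : Pt (a : Ω) (b : Ω) × Pt (a : k) (b : k) =>
          z.1 + eh z.2 = R) (hSf.toFinset ×ˢ Finset.univ)).card ≤ hf.toFinset.card := by
          refine Finset.card_le_card_of_injOn (fun z => z.2 - Q0) ?_ ?_
          · rintro ⟨P, Q⟩ hPQ
            simp only [Finset.coe_filter, Finset.mem_product, Set.Finite.mem_toFinset,
              Finset.mem_univ, and_true, Set.mem_ofPred_eq] at hPQ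
            obtain ⟨hP, hR⟩ := hPQ
            rw [Finset.mem_coe, Set.Finite.mem_toFinset]
            show (m * t) • (Q - Q0) = 0
            apply heinj
            rw [smul_sub, map_sub, map_zero]
            have e1 := hh P Q
            have e2 := hh P0 Q0
            rw [hR, hP.2] at e1
            rw [hR0, hP0.2, e1] at e2
            rw [sub_eq_zero]
            exact add_left_cancel e2
          · rintro ⟨P, Q⟩ hPQ ⟨P', Q'⟩ hPQ' he
            simp only [Finset.coe_filter, Finset.mem_product, Set.Finite.mem_toFinset,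
              Finset.mem_univ, and_true, Set.mem_ofPred_eq] at hPQ hPQ' he
            have hQ : Q = Q' := sub_left_injective he
            subst hQ
            have hP : P = P' := by
              have := hPQ.2.trans hPQ'.2.symm
              exact add_right_cancel this
            rw [hP]
        refine hcard.trans ?_
        rwa [← Set.ncard_eq_toFinset_card _ hf]
      · rw [Finset.not_nonempty_iff_eq_empty] at hne
        rw [hne]
        simp
  rw [Finset.card_product, Finset.card_univ] at hmain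
  rw [Set.ncard_eq_toFinset_card _ hSf, Set.ncard_eq_toFinset_card _ hAf, Nat.card_eq_fintype_card]
  exact hmain

end

theorem main : S_TOR → S_CRD → S_TRC := by
  intro hTOR hCRD a b hab hdisc B
  choose! C0 p0 h0 using hTOR a b hdisc
  refine ⟨24 * (∑ n ∈ Finset.range (B * B + 1), C0 n) + 3,
    (∑ n ∈ Finset.range (B * B + 1), p0 n) + (4 * a ^ 3 + 27 * b ^ 2).natAbs + 4, ?_⟩
  intro p hp hpl h12 k _ _ hk Ω _ _ _ t m ht htB hm hmB σ
  classical
  have : Fact p.Prime := ⟨hp⟩
  have : CharP k p := by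
    rcases hk with hk | hk
    · exact charP_of_card_eq_prime_pow (f := 1) (by rw [hk, pow_one])
    · exact charP_of_card_eq_prime_pow (f := 2) hk
  have : CharP Ω p := charP_of_injective_algebraMap (algebraMap k Ω).injective p
  have hnd : ¬ (p : ℤ) ∣ 4 * a ^ 3 + 27 * b ^ 2 := by
    intro h
    have h1 := Int.natAbs_dvd_natAbs.2 h
    rw [Int.natAbs_natCast] at h1
    have h2 := Nat.le_of_dvd (Int.natAbs_pos.2 hdisc) h1
    omega
  have hd : Disc (a : Ω) (b : Ω) := by
    unfold Disc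
    refine mul_ne_zero ?_ ?_
    · intro h
      have h1 : ((2 : ℕ) : Ω) = 0 := by exact_mod_cast h
      rw [CharP.cast_eq_zero_iff Ω p] at h1
      have := Nat.le_of_dvd (by norm_num) h1
      omega
    · intro h
      apply hnd
      rw [← CharP.intCast_eq_zero_iff Ω p]
      push_cast
      exact h
  have hq1 : 1 < Fintype.card k := Fintype.one_lt_card
  obtain ⟨hA1, hA2⟩ := A_bound (k := k) (Ω := Ω) a b t ht
  refine ⟨hA1, hA2.trans (Nat.mul_le_mul_right _ (by omega)), ?_⟩
  have hmt : m * t ∈ Finset.range (B * B + 1) := by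
    rw [Finset.mem_range]
    have := Nat.mul_le_mul hmB htB
    omega
  have hmt1 : 1 ≤ m * t := Nat.mul_pos hm ht
  have hpm : p0 (m * t) ≤ p := by
    have := Finset.single_le_sum (f := p0) (fun _ _ => Nat.zero_le _) hmt
    omega
  obtain ⟨hf, hC⟩ := h0 (m * t) hmt1 p hp hpm k
  have hkey := key a b hd t m (C0 (m * t)) ht hf hC σ
  have hcrd := hCRD p a b hp h12 hab hnd k hk
  have hCs : C0 (m * t) ≤ ∑ n ∈ Finset.range (B * B + 1), C0 n :=
    Finset.single_le_sum (f := C0) (fun _ _ => Nat.zero_le _) hmt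
  set S := {P : Pt (a : Ω) (b : Ω) | (mp (Fr k Ω))^[t] P = P ∧
      m • ∑ i ∈ Finset.range t, (mp (Fr k Ω))^[i] P = σ}.ncard
  set A := {P : Pt (a : Ω) (b : Ω) | (mp (Fr k Ω))^[t] P = P}.ncard
  set q := Fintype.card k
  set n := Nat.card (Pt (a : k) (b : k))
  calc S * q ≤ S * (8 * n) := Nat.mul_le_mul_left _ hcrd
    _ = 8 * (S * n) := by ring
    _ ≤ 8 * (C0 (m * t) * A) := Nat.mul_le_mul_left _ hkey
    _ ≤ 8 * ((∑ n ∈ Finset.range (B * B + 1), C0 n) * (3 * q ^ t)) :=
        Nat.mul_le_mul_left _ (Nat.mul_le_mul hCs hA2)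
    _ ≤ (24 * (∑ n ∈ Finset.range (B * B + 1), C0 n) + 3) * q ^ t := by
        nlinarith [Nat.zero_le (q ^ t)]

end Pool.Agent.N34.BD.TRC

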